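import Pool.Agent.H9.RC1

namespace Pool.Agent.Results.MP_859019_mp.Alpha3
open Matrix Pool.Agent.H9.RE Pool.Agent.H9.RC

/-- `K = exp ((1-α) H)` -/
noncomputable def K (α H : ℝ) : ℝ := Real.exp ((1 - α) * H)

/-- the conjectured bound `F_α` for `α ≠ 1` -/
noncomputable def F (α H₁ H₂ : ℝ) : ℝ :=
  1 / (1 - α) * Real.log (((2 : ℝ) ^ (1 - α) - K α H₁) * ((2 : ℝ) ^ (1 - α) - K α H₂) /
    (1 - (2 : ℝ) ^ (1 - α)) + (2 : ℝ) ^ (1 - α))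

/-- Equality at `α = 3` for arbitrary quantum side information. -/
theorem result (d₁ d₂ : ℕ) (σ : Fin 2 → Matrix (Fin d₁) (Fin d₁) ℂ)
    (s : Fin 2 → Matrix (Fin d₂) (Fin d₂) ℂ) (hσ : ∀ x, IsState (σ x)) (hs : ∀ x, IsState (s x)) :
    Hd 3 (tau σ s) = F 3 (Hd 3 (rho σ)) (Hd 3 (rho s)) := by
  obtain ⟨a, b, a0, -, b0, -, h1, h2, h3⟩ := main σ s hσ hs
  have d : (2 : ℝ) ^ ((1 : ℝ) - 3) = 1 / 4 := by
    rw [show (1 : ℝ) - 3 = ((-2 : ℤ) : ℝ) by norm_num, Real.rpow_intCast]; norm_num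
  have k : ∀ c : ℝ, 0 ≤ c → K 3 (Real.log ((1 + 3 * c) / 4) / (1 - 3)) = (1 + 3 * c) / 4 := by
    intro c hc
    rw [K, mul_div_cancel₀ _ (by norm_num), Real.exp_log (by positivity)]
  rw [F, Hd, Hd, Hd, h1, h2, h3, k a a0, k b b0, d]
  rw [show (1 / 4 - (1 + 3 * a) / 4) * (1 / 4 - (1 + 3 * b) / 4) / (1 - 1 / 4) + 1 / 4 =
    (1 + 3 * (a * b)) / 4 by ring]
  ring

end Pool.Agent.Results.MP_859019_mp.Alpha3
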