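import Pool.Agent.H9.RC2

namespace Pool.Agent.Results.MP_859019_mp.Alpha4
open Matrix Pool.Agent.H9.RE Pool.Agent.H9.RC

/-- `K = exp ((1-α) H)` -/
noncomputable def K (α H : ℝ) : ℝ := Real.exp ((1 - α) * H)

/-- the conjectured bound `F_α` for `α ≠ 1` -/
noncomputable def F (α H₁ H₂ : ℝ) : ℝ :=
  1 / (1 - α) * Real.log (((2 : ℝ) ^ (1 - α) - K α H₁) * ((2 : ℝ) ^ (1 - α) - K α H₂) /
    (1 - (2 : ℝ) ^ (1 - α)) + (2 : ℝ) ^ (1 - α))

/-- The conjectured upper bound at `α = 4` for arbitrary quantum side information. -/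
theorem result (d₁ d₂ : ℕ) (σ : Fin 2 → Matrix (Fin d₁) (Fin d₁) ℂ)
    (s : Fin 2 → Matrix (Fin d₂) (Fin d₂) ℂ) (hσ : ∀ x, IsState (σ x)) (hs : ∀ x, IsState (s x)) :
    Hd 4 (tau σ s) ≤ F 4 (Hd 4 (rho σ)) (Hd 4 (rho s)) := by
  obtain ⟨a, b, c, a', b', c', c0, cb, ba, c0', cb', ba', h1, h2, h3⟩ := main4 σ s hσ hs
  have d : (2 : ℝ) ^ ((1 : ℝ) - 4) = 1 / 8 := by
    rw [show (1 : ℝ) - 4 = ((-3 : ℤ) : ℝ) by norm_num, Real.rpow_intCast]; norm_num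
  have k : ∀ c : ℝ, 0 ≤ c → K 4 (Real.log ((1 + c) / 8) / (1 - 4)) = (1 + c) / 8 := by
    intro c hc
    rw [K, mul_div_cancel₀ _ (by norm_num), Real.exp_log (by positivity)]
  have u : 0 ≤ 4 * a + 2 * b + c := by linarith
  have u' : 0 ≤ 4 * a' + 2 * b' + c' := by linarith
  rw [F, Hd, Hd, Hd, h1, h2, h3, k _ u, k _ u', d]
  rw [show (1 / 8 - (1 + (4 * a + 2 * b + c)) / 8) * (1 / 8 - (1 + (4 * a' + 2 * b' + c')) / 8) /
    (1 - 1 / 8) + 1 / 8 = (1 + (4 * a + 2 * b + c) * (4 * a' + 2 * b' + c') / 7) / 8 by ring]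
  have m1 := mul_nonneg (sub_nonneg.mpr ba) (sub_nonneg.mpr ba')
  have m2 := mul_nonneg (sub_nonneg.mpr cb) (sub_nonneg.mpr cb')
  have m3 := mul_nonneg (sub_nonneg.mpr (cb.trans ba)) (sub_nonneg.mpr (cb'.trans ba'))
  have := Real.log_le_log (x := (1 + (4 * a + 2 * b + c) * (4 * a' + 2 * b' + c') / 7) / 8)
    (y := (1 + (4 * (a * a') + 2 * (b * b') + c * c')) / 8) (by positivity) (by nlinarith)
  rw [show (1 : ℝ) - 4 = -3 by norm_num]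
  linarith

end Pool.Agent.Results.MP_859019_mp.Alpha4
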