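import Pool.Agent.H9.RC4

namespace Pool.Agent.Results.MP_859019_mp.Alpha6
open Matrix Pool.Agent.H9.RE Pool.Agent.H9.RC

/-- `K = exp ((1-α) H)` -/
noncomputable def K (α H : ℝ) : ℝ := Real.exp ((1 - α) * H)

/-- the conjectured bound `F_α` for `α ≠ 1` -/
noncomputable def F (α H₁ H₂ : ℝ) : ℝ :=
  1 / (1 - α) * Real.log (((2 : ℝ) ^ (1 - α) - K α H₁) * ((2 : ℝ) ^ (1 - α) - K α H₂) /
    (1 - (2 : ℝ) ^ (1 - α)) + (2 : ℝ) ^ (1 - α))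

/-- The conjectured upper bound at `α = 6` for arbitrary quantum side information. -/
theorem result (d₁ d₂ : ℕ) (σ : Fin 2 → Matrix (Fin d₁) (Fin d₁) ℂ)
    (s : Fin 2 → Matrix (Fin d₂) (Fin d₂) ℂ) (hσ : ∀ x, IsState (σ x)) (hs : ∀ x, IsState (s x)) :
    Hd 6 (tau σ s) ≤ F 6 (Hd 6 (rho σ)) (Hd 6 (rho s)) := by
  obtain ⟨a1, a2, a3, b1, b2, b3, c0, a1', a2', a3', b1', b2', b3', c0', ⟨p1, p2, p3, p4, p5, p6, p7, p8⟩,
    ⟨q1, q2, q3, q4, q5, q6, q7, q8⟩, h1, h2, h3⟩ := main6 σ s hσ hs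
  have d : (2 : ℝ) ^ ((1 : ℝ) - 6) = 1 / 32 := by
    rw [show (1 : ℝ) - 6 = ((-5 : ℤ) : ℝ) by norm_num, Real.rpow_intCast]; norm_num
  have k : ∀ c : ℝ, 0 ≤ c → K 6 (Real.log ((1 + c) / 32) / (1 - 6)) = (1 + c) / 32 := by
    intro c hc
    rw [K, mul_div_cancel₀ _ (by norm_num), Real.exp_log (by positivity)]
  have u : 0 ≤ 6 * a1 + 6 * a2 + 3 * a3 + 6 * b1 + 6 * b2 + 3 * b3 + c0 := by linarith
  have u' : 0 ≤ 6 * a1' + 6 * a2' + 3 * a3' + 6 * b1' + 6 * b2' + 3 * b3' + c0' := by linarith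
  have v : (6 * a1 + 6 * a2 + 3 * a3 + 6 * b1 + 6 * b2 + 3 * b3 + c0) *
      (6 * a1' + 6 * a2' + 3 * a3' + 6 * b1' + 6 * b2' + 3 * b3' + c0') / 31 ≤
      6 * (a1 * a1') + 6 * (a2 * a2') + 3 * (a3 * a3') + 6 * (b1 * b1') + 6 * (b2 * b2') + 3 * (b3 * b3') + (c0 * c0') := by
    linarith [mul_nonneg p1 q1, mul_nonneg p1 q2, mul_nonneg p1 q3, mul_nonneg p1 q4, mul_nonneg p1 q5, mul_nonneg p1 q6,
      mul_nonneg p2 q1, mul_nonneg p2 q2, mul_nonneg p2 q3, mul_nonneg p2 q4, mul_nonneg p2 q5, mul_nonneg p2 q6,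
      mul_nonneg p3 q1, mul_nonneg p3 q2, mul_nonneg p3 q3, mul_nonneg p3 q4, mul_nonneg p3 q5, mul_nonneg p3 q6,
      mul_nonneg p4 q1, mul_nonneg p4 q2, mul_nonneg p4 q3, mul_nonneg p4 q4, mul_nonneg p4 q5, mul_nonneg p4 q6,
      mul_nonneg p5 q1, mul_nonneg p5 q2, mul_nonneg p5 q3, mul_nonneg p5 q4, mul_nonneg p5 q5, mul_nonneg p5 q6,
      mul_nonneg p6 q1, mul_nonneg p6 q2, mul_nonneg p6 q3, mul_nonneg p6 q4, mul_nonneg p6 q5, mul_nonneg p6 q6]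
  rw [F, Hd, Hd, Hd, h1, h2, h3, k _ u, k _ u', d]
  generalize 6 * a1 + 6 * a2 + 3 * a3 + 6 * b1 + 6 * b2 + 3 * b3 + c0 = S at *
  generalize 6 * a1' + 6 * a2' + 3 * a3' + 6 * b1' + 6 * b2' + 3 * b3' + c0' = S' at *
  generalize 6 * (a1 * a1') + 6 * (a2 * a2') + 3 * (a3 * a3') + 6 * (b1 * b1') + 6 * (b2 * b2') + 3 * (b3 * b3') + (c0 * c0') = T at *
  rw [show (1 / 32 - (1 + S) / 32) * (1 / 32 - (1 + S') / 32) / (1 - 1 / 32) + 1 / 32 =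
    (1 + S * S' / 31) / 32 by ring]
  have := Real.log_le_log (x := (1 + S * S' / 31) / 32) (y := (1 + T) / 32) (by positivity)
    (by linarith)
  rw [show (1 : ℝ) - 6 = -5 by norm_num]
  linarith

end Pool.Agent.Results.MP_859019_mp.Alpha6
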